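import Pool.Agent.R200.IePd

/-!
# MP_bb668a_an: the random period doubling subshift is intrinsically ergodic
-/

open Pool.Agent.R200.Ie MeasureTheory Filter Topology in
/-- There is exactly one measure of maximal entropy `μ`; its entropy is `(2/3) log 2`, and its
cylinder weights are the limits of the mean frequencies over the words of `ϑ^n(a)`. -/
theorem Pool.Agent.Results.MP_bb668a_an.IntrinsicallyErgodic.result :
    ∃ μ : Measure (ℤ → Bool), IsMME (Subshift thP) μ (2 / 3 * Real.log 2) ∧
      (∀ (ν : Measure (ℤ → Bool)) (h : ℝ), IsMME (Subshift thP) ν h → ν = μ) ∧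
      ∀ S : ℕ → Finset (List Bool), (∀ n w, w ∈ S n ↔ Iter thP n [false] w) →
        ∀ v : List Bool, v ≠ [] →
          Tendsto (fun n => (∑ w ∈ S n, (occ v w : ℝ) / 2 ^ n) / ((S n).card : ℝ)) atTop
            (𝓝 (μ.real {x | win x 0 v.length = v})) := by
  obtain ⟨μ, h1, h2, h3⟩ := pd_main
  refine ⟨μ, h1, fun ν h hν => mme_unique h1 h3 hν, ?_⟩
  intro S hS v hv
  have hSW : ∀ n, S n = WP n false := by
    intro n
    ext w
    rw [hS, mem_WP]
  have h4 := FP_lim hv false
  rw [← h2 v] at h4
  refine h4.congr fun n => ?_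
  rw [hSW]
  unfold mn avg
  rw [← Finset.sum_div, div_right_comm]
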